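import Mathlib
import Pool.Agent.H75R4.Gab.Stmts

set_option autoImplicit false

/-! # H75-GABOR, TaskSpec: the seven cubes are spectral -/

namespace Pool.Agent.H283R3.GabSpec

open MeasureTheory Complex Pool.Agent.H75R4.Gab
open scoped ENNReal

/-- character -/
noncomputable def ch (β x : V) : ℂ := exp (2 * (Real.pi : ℂ) * I * ((inner ℝ x β : ℝ) : ℂ))

lemma ch_add_left (β x y : V) : ch β (x + y) = ch β x * ch β y := by
  unfold ch
  rw [← Complex.exp_add, inner_add_left]
  congr 1
  push_cast
  ring

lemma ch_add_right (β γ x : V) : ch (β + γ) x = ch β x * ch γ x := by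
  unfold ch
  rw [← Complex.exp_add, inner_add_right]
  congr 1
  push_cast
  ring

lemma ch_neg (β x : V) :
    ch (-β) x = exp (-(2 * (Real.pi : ℂ) * I * ((inner ℝ x β : ℝ) : ℂ))) := by
  unfold ch
  rw [inner_neg_right]
  congr 1
  push_cast
  ring

lemma ch_zero (x : V) : ch 0 x = 1 := by
  unfold ch
  rw [inner_zero_right]
  simp

lemma norm_ch (β x : V) : ‖ch β x‖ = 1 := by
  unfold ch
  have h : 2 * (Real.pi : ℂ) * I * ((inner ℝ x β : ℝ) : ℂ) =
      ((2 * Real.pi * inner ℝ x β : ℝ) : ℂ) * I := by
    push_cast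
    ring
  rw [h]
  exact Complex.norm_exp_ofReal_mul_I _

lemma ch_ne (β x : V) : ch β x ≠ 0 := by
  unfold ch
  exact Complex.exp_ne_zero _

lemma ch_cont (β : V) : Continuous (ch β) := by
  unfold ch
  fun_prop

lemma inner_eq (x y : V) : (inner ℝ x y : ℝ) = ∑ i, x i * y i := by
  rw [PiLp.inner_apply]
  apply Finset.sum_congr rfl
  intro i _
  simp [mul_comm]

lemma ch_int (m n : Fin 5 → ℤ) : ch (iv n) (iv m) = 1 := by
  unfold ch
  rw [inner_eq]
  have h : (∑ i, (iv m) i * (iv n) i : ℝ) = ((∑ i, m i * n i : ℤ) : ℝ) := by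
    push_cast
    rfl
  rw [h]
  have h2 := Complex.exp_int_mul_two_pi_mul_I (∑ i, m i * n i)
  rw [← h2]
  congr 1
  push_cast
  ring

lemma meas_cube (c : V) : MeasurableSet (cube c) := by
  have h : cube c = ⋂ i, {x : V | c i ≤ x i ∧ x i < c i + 1} := by
    ext x
    simp [cube]
  rw [h]
  apply MeasurableSet.iInter
  intro i
  have hm : Measurable (fun x : V => x i) := by fun_prop
  exact (measurableSet_le measurable_const hm).inter (measurableSet_lt hm measurable_const)

lemma shift_mem (y x : V) : x + y ∈ cube y ↔ x ∈ cube 0 := by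
  unfold cube
  constructor
  · intro h i
    have := h i
    simp only [PiLp.add_apply] at this
    simp only [PiLp.zero_apply]
    constructor <;> linarith [this.1, this.2]
  · intro h i
    have := h i
    simp only [PiLp.zero_apply] at this
    simp only [PiLp.add_apply]
    constructor <;> linarith [this.1, this.2]

lemma int_shift (y : V) (f : V → ℂ) : ∫ x in cube y, f x = ∫ x in cube 0, f (x + y) := by
  rw [← integral_indicator (meas_cube y), ← integral_indicator (meas_cube 0),
    ← integral_add_right_eq_self _ y]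
  congr 1
  funext x
  by_cases h : x ∈ cube 0
  · rw [Set.indicator_of_mem h, Set.indicator_of_mem ((shift_mem y x).2 h)]
  · rw [Set.indicator_of_notMem h, Set.indicator_of_notMem (fun h' => h ((shift_mem y x).1 h'))]

lemma YZ_inj : Function.Injective YZ := by decide

lemma disj : Pairwise (Function.onFun Disjoint fun j => cube (iv (YZ j))) := by
  intro j k hjk
  rw [Function.onFun, Set.disjoint_left]
  intro x hx hy
  apply hjk
  apply YZ_inj
  funext i
  have h1 := hx i
  have h2 := hy i
  have e1 : (iv (YZ j)) i = (YZ j i : ℝ) := rfl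
  have e2 : (iv (YZ k)) i = (YZ k i : ℝ) := rfl
  rw [e1] at h1
  rw [e2] at h2
  have f1 : ⌊x i⌋ = YZ j i := Int.floor_eq_iff.2 h1
  have f2 : ⌊x i⌋ = YZ k i := Int.floor_eq_iff.2 h2
  rw [← f1, f2]

lemma int_E (g : V → ℂ) (hg : ∀ j, IntegrableOn g (cube (iv (YZ j)))) :
    ∫ x in E, g x = ∑ j, ∫ x in cube 0, g (x + iv (YZ j)) := by
  unfold E
  rw [integral_iUnion_fintype (fun j => meas_cube _) disj hg]
  exact Finset.sum_congr rfl fun j _ => int_shift _ _

lemma int1 (m : ℤ) (hm : m ≠ 0) :
    ∫ t : ℝ, (Set.Ico (0:ℝ) 1).indicator (fun t => exp (2 * (Real.pi : ℂ) * I * m * t)) t = 0 := by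
  rw [integral_indicator measurableSet_Ico, integral_Ico_eq_integral_Ioc,
    ← intervalIntegral.integral_of_le zero_le_one]
  have hc : (2 * (Real.pi : ℂ) * I * m) ≠ 0 := by
    have := Complex.two_pi_I_ne_zero
    have h2 : (m : ℂ) ≠ 0 := by exact_mod_cast hm
    exact mul_ne_zero this h2
  rw [integral_exp_mul_complex hc]
  have h3 : exp (2 * (Real.pi : ℂ) * I * m * ((1:ℝ) : ℂ)) = 1 := by
    rw [← Complex.exp_int_mul_two_pi_mul_I m]
    congr 1
    push_cast
    ring
  rw [h3]
  simp

lemma int_zero (m : Fin 5 → ℤ) (hm : m ≠ 0) : ∫ x in cube 0, ch (iv m) x = 0 := by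
  obtain ⟨i0, hi0⟩ := Function.ne_iff.mp hm
  have hmp := (PiLp.volume_preserving_toLp (Fin 5))
  rw [← integral_indicator (meas_cube 0)]
  have h1 : ∫ x : V, (cube 0).indicator (ch (iv m)) x =
      ∫ y : Fin 5 → ℝ, (cube 0).indicator (ch (iv m)) (WithLp.toLp 2 y) := by
    symm
    exact hmp.integral_comp (MeasurableEquiv.toLp 2 (Fin 5 → ℝ)).measurableEmbedding _
  rw [h1]
  have h2 : ∀ y : Fin 5 → ℝ, (cube 0).indicator (ch (iv m)) (WithLp.toLp 2 y) =
      ∏ i, (Set.Ico (0:ℝ) 1).indicator (fun t => exp (2 * (Real.pi : ℂ) * I * (m i) * t)) (y i) := by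
    intro y
    by_cases hy : ∀ i, y i ∈ Set.Ico (0:ℝ) 1
    · have hmem : (WithLp.toLp 2 y : V) ∈ cube 0 := by
        intro i
        have := hy i
        simp only [PiLp.zero_apply, zero_add]
        exact this
      rw [Set.indicator_of_mem hmem]
      rw [Finset.prod_congr rfl (fun i _ => Set.indicator_of_mem (hy i) _)]
      unfold ch
      rw [← Complex.exp_sum, inner_eq]
      congr 1
      push_cast
      rw [Finset.mul_sum]
      apply Finset.sum_congr rfl
      intro i _
      show 2 * (Real.pi : ℂ) * I * ((y i : ℂ) * (((m i : ℤ) : ℝ) : ℂ)) = _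
      push_cast
      ring
    · push Not at hy
      obtain ⟨i, hi⟩ := hy
      rw [Set.indicator_of_notMem, Finset.prod_eq_zero (Finset.mem_univ i)]
      · exact Set.indicator_of_notMem hi _
      · intro h
        apply hi
        have := h i
        simp only [PiLp.zero_apply, zero_add] at this
        exact this
  simp_rw [h2]
  rw [integral_fintype_prod_volume_eq_prod (fun (i : Fin 5) (t : ℝ) =>
    (Set.Ico (0:ℝ) 1).indicator (fun t => exp (2 * (Real.pi : ℂ) * I * (m i) * t)) t)]
  exact Finset.prod_eq_zero (Finset.mem_univ i0) (int1 (m i0) hi0)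

lemma iv_sub (m n : Fin 5 → ℤ) : iv m - iv n = iv (m - n) := by
  ext i
  simp [iv]

lemma iv_neg (n : Fin 5 → ℤ) : -iv n = iv (-n) := by
  ext i
  simp [iv]

lemma iv_zero : iv 0 = 0 := by
  ext i
  simp [iv]

lemma W_eq (β : V) : W β = ∑ j, ch β (iv (YZ j)) := rfl

lemma W_add_iv (β : V) (n : Fin 5 → ℤ) : W (β + iv n) = W β := by
  rw [W_eq, W_eq]
  apply Finset.sum_congr rfl
  intro j _
  rw [ch_add_right, ch_int, mul_one]

lemma int_E_ch (hv : ∀ c : V, volume (cube c) = 1) (β : V) :
    ∫ x in E, ch β x = W β * ∫ x in cube 0, ch β x := by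
  rw [int_E]
  · rw [W_eq, Finset.sum_mul]
    apply Finset.sum_congr rfl
    intro j _
    rw [← integral_const_mul]
    congr 1
    funext x
    rw [ch_add_left, mul_comm]
  · intro j
    refine Measure.integrableOn_of_bounded (M := 1) ?_ (ch_cont β).aestronglyMeasurable ?_
    · rw [hv]; exact ENNReal.one_ne_top
    · exact Filter.Eventually.of_forall fun x => (norm_ch β x).le

lemma mp_shift (y : V) : MeasurePreserving (fun x : V => x + y)
    (volume.restrict (cube 0)) (volume.restrict (cube y)) := by
  have h := (measurePreserving_add_right (volume : Measure V) y).restrict_preimage (meas_cube y)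
  have e : (fun x : V => x + y) ⁻¹' (cube y) = cube 0 := by
    ext x
    exact shift_mem y x
  rwa [e] at h

lemma mp_unshift (y : V) : MeasurePreserving (fun x : V => x + -y)
    (volume.restrict (cube y)) (volume.restrict (cube 0)) := by
  have h := (measurePreserving_add_right (volume : Measure V) (-y)).restrict_preimage
    (meas_cube 0)
  have e : (fun x : V => x + -y) ⁻¹' (cube 0) = cube y := by
    ext x
    rw [Set.mem_preimage, ← shift_mem y, neg_add_cancel_right]
  rwa [e] at h

lemma memLp_mul (s : Set V) (f : V → ℂ) (hf : MemLp f 2 (volume.restrict s)) (β : V) :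
    MemLp (fun x => f x * ch β x) 2 (volume.restrict s) := by
  refine MemLp.of_le hf (hf.1.mul (ch_cont β).aestronglyMeasurable) ?_
  exact Filter.Eventually.of_forall fun x => by rw [norm_mul, norm_ch, mul_one]

/-- inversion of the Hadamard matrix -/
lemma invert (hH : TaskHad) (F : Fin 7 → ℂ)
    (h : ∀ k, ∑ j, ch (-bv k) (iv (YZ j)) * F j = 0) : F = 0 := by
  have h7 : W 0 = 7 := by
    rw [W_eq]
    simp [ch_zero]
  let M : Matrix (Fin 7) (Fin 7) ℂ := fun k j => ch (-bv k) (iv (YZ j))
  let N : Matrix (Fin 7) (Fin 7) ℂ := fun j l => (1 / 7 : ℂ) * ch (bv l) (iv (YZ j))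
  have hMN : M * N = 1 := by
    ext k l
    rw [Matrix.mul_apply]
    have e : ∑ j, M k j * N j l = (1 / 7 : ℂ) * W (bv l - bv k) := by
      rw [W_eq, Finset.mul_sum]
      apply Finset.sum_congr rfl
      intro j _
      show ch (-bv k) (iv (YZ j)) * ((1 / 7 : ℂ) * ch (bv l) (iv (YZ j))) = _
      rw [sub_eq_add_neg, ch_add_right]
      ring
    rw [e]
    by_cases hkl : k = l
    · subst hkl
      rw [sub_self, h7, Matrix.one_apply_eq]
      norm_num
    · rw [hH l k (fun h => hkl h.symm), mul_zero, Matrix.one_apply_ne hkl]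
  have hNM : N * M = 1 := mul_eq_one_comm.mp hMN
  have hMF : M.mulVec F = 0 := by
    funext k
    exact h k
  calc F = (N * M).mulVec F := by rw [hNM, Matrix.one_mulVec]
    _ = N.mulVec (M.mulVec F) := (Matrix.mulVec_mulVec _ _ _).symm
    _ = 0 := by rw [hMF, Matrix.mulVec_zero]

theorem taskSpec : TaskSpec := by
  intro hH hF hM
  obtain ⟨-, -, hv⟩ := hM
  have hfin : ∀ c : V, IsFiniteMeasure (volume.restrict (cube c)) := fun c =>
    ⟨by rw [Measure.restrict_apply_univ, hv]; exact ENNReal.one_lt_top⟩
  refine ⟨{l | ∃ k n, l = bv k + iv n}, ?_, ?_⟩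
  · rintro l ⟨k, n, rfl⟩ l' ⟨k', n', rfl⟩ hne
    change ∫ x in E, ch ((bv k + iv n) - (bv k' + iv n')) x = 0
    have e : (bv k + iv n) - (bv k' + iv n') = (bv k - bv k') + iv (n - n') := by
      rw [← iv_sub]
      abel
    rw [e, int_E_ch hv, W_add_iv]
    by_cases hk : k = k'
    · subst hk
      have hn : n - n' ≠ 0 := by
        intro h0
        apply hne
        rw [sub_eq_zero.mp h0]
      rw [sub_self, zero_add, int_zero _ hn, mul_zero]
    · rw [hH k k' hk, zero_mul]
  · intro f hf h0
    have hfj : ∀ j, MemLp f 2 (volume.restrict (cube (iv (YZ j)))) := fun j =>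
      hf.mono_measure (Measure.restrict_mono (Set.subset_iUnion (fun j => cube (iv (YZ j))) j) le_rfl)
    have hFj : ∀ j, MemLp (fun x => f (x + iv (YZ j))) 2 (volume.restrict (cube 0)) := fun j =>
      (hfj j).comp_measurePreserving (mp_shift _)
    have hsh : ∀ (j : Fin 7) (β : V), MemLp (fun x => f (x + iv (YZ j)) * ch β (x + iv (YZ j))) 2
        (volume.restrict (cube 0)) := fun j β =>
      (memLp_mul _ f (hfj j) β).comp_measurePreserving (mp_shift _)
    have key : ∀ k, (fun x => ∑ j, f (x + iv (YZ j)) * ch (-bv k) (x + iv (YZ j)))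
        =ᵐ[volume.restrict (cube 0)] 0 := by
      intro k
      apply hF
      · exact memLp_finsetSum _ fun j _ => hsh j _
      · intro n
        have h1 := h0 (bv k + iv n) ⟨k, n, rfl⟩
        have h2 : ∫ x in E, f x * ch (-(bv k + iv n)) x = 0 := by
          rw [← h1]
          congr 1
          funext x
          rw [ch_neg]
        rw [int_E _ (fun j => (memLp_mul _ f (hfj j) _).integrable (by norm_num)),
          ← integral_finsetSum _ (fun j _ => (hsh j _).integrable (by norm_num))] at h2
        rw [← h2]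
        congr 1
        funext x
        rw [Finset.sum_mul]
        apply Finset.sum_congr rfl
        intro j _
        rw [neg_add, ch_add_right, iv_neg, ch_add_left (iv (-n)), ch_int, mul_one, ← iv_neg, ch_neg (iv n)]
        ring
    have hall : ∀ᵐ x ∂(volume.restrict (cube 0)), ∀ k,
        ∑ j, f (x + iv (YZ j)) * ch (-bv k) (x + iv (YZ j)) = 0 := by
      rw [ae_all_iff]
      intro k
      exact key k
    have hzero : ∀ᵐ x ∂(volume.restrict (cube 0)), ∀ j, f (x + iv (YZ j)) = 0 := by
      filter_upwards [hall] with x hx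
      have h3 : (fun j => f (x + iv (YZ j))) = 0 := by
        apply invert hH
        intro k
        have h4 := hx k
        have h5 : ∑ j, f (x + iv (YZ j)) * ch (-bv k) (x + iv (YZ j)) =
            ch (-bv k) x * ∑ j, ch (-bv k) (iv (YZ j)) * f (x + iv (YZ j)) := by
          rw [Finset.mul_sum]
          apply Finset.sum_congr rfl
          intro j _
          rw [ch_add_left]
          ring
        rw [h5] at h4
        exact (mul_eq_zero.mp h4).resolve_left (ch_ne _ _)
      exact fun j => congrFun h3 j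
    show ∀ᵐ x ∂(volume.restrict E), f x = 0
    unfold E
    rw [ae_restrict_iUnion_iff]
    intro j
    have h6 : ∀ᵐ x ∂(volume.restrict (cube 0)), f (x + iv (YZ j)) = 0 := by
      filter_upwards [hzero] with x hx
      exact hx j
    have h7 := (mp_unshift (iv (YZ j))).quasiMeasurePreserving.ae h6
    filter_upwards [h7] with x hx
    rwa [neg_add_cancel_right] at hx

end Pool.Agent.H283R3.GabSpec
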